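import Pool.Agent.K4H59.TL.Spec

open Set

namespace Pool.Agent.K4H59.TL

open Pool.Agent.K4H72.Til (IsPolygon ShareEdge IsTiling Tile Derivable Adj HasLocEig)

namespace M3

lemma sh_eq (t : ℂ) (K : Set ℂ) : sh t K = (Homeomorph.addLeft t) '' K := rfl

lemma sh_interior' (t : ℂ) (K : Set ℂ) : interior (sh t K) = sh t (interior K) := by
  rw [sh_eq, sh_eq, Homeomorph.image_interior]

lemma sh_closure' (t : ℂ) (K : Set ℂ) : closure (sh t K) = sh t (closure K) := by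
  rw [sh_eq, sh_eq, Homeomorph.image_closure]

lemma sh_sh' (s t : ℂ) (K : Set ℂ) : sh s (sh t K) = sh (s + t) K := by
  unfold sh
  rw [image_image]
  congr 1
  funext z
  ring

lemma sh_zero' (K : Set ℂ) : sh 0 K = K := by
  unfold sh
  simp

lemma sh_polygon' {K : Set ℂ} (t : ℂ) (hK : IsPolygon K) : IsPolygon (sh t K) := by
  classical
  obtain ⟨hne, hc, hd, s, hs, hKs⟩ := hK
  refine ⟨hne.image _, hc.image (continuous_const.add continuous_id), ?_, ?_⟩
  · rw [sh_interior', sh_closure']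
    exact image_mono hd
  · refine ⟨s.image (fun p => (p.1, p.2 + p.1 t)), ?_, ?_⟩
    · intro p hp
      obtain ⟨q, hq, rfl⟩ := Finset.mem_image.mp hp
      exact hs q hq
    · ext z
      constructor
      · rintro ⟨x, hx, rfl⟩
        rw [hKs] at hx
        intro p hp
        obtain ⟨q, hq, rfl⟩ := Finset.mem_image.mp hp
        have := hx q hq
        simp only [map_add]
        linarith
      · intro hz
        refine ⟨z - t, ?_, by ring⟩
        rw [hKs]
        intro q hq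
        have := hz (q.1, q.2 + q.1 t) (Finset.mem_image.mpr ⟨q, hq, rfl⟩)
        simp only at this
        rw [map_sub]
        linarith

end M3

open M3 in
/-- PIECE M3 (the set is `newT T rep t D₀` unfolded) -/
theorem newT_tiling_aux {C : Type} {T : Set (Tile C)} (hT : IsTiling T) {rep : Set ℂ → Set ℂ}
    {t : Set ℂ → ℂ} (h1 : ∀ K, K = sh (t K) (rep K)) (h2 : ∀ K s, rep (sh s K) = rep K)
    {D₀ : Set ℂ → Set (Set ℂ)} {ρ₀ : Set ℂ → Set ℂ → ℕ}
    (hD : ∀ K, IsPolygon K → GoodDec K (D₀ K) (ρ₀ K)) :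
    IsTiling {q : Tile (C × Set ℂ × Set ℂ) | ∃ s ∈ T, ∃ Q₀ ∈ D₀ (rep s.1),
      q = (sh (t s.1) Q₀, (s.2, rep s.1, Q₀))} := by
  have hrep : ∀ s ∈ T, IsPolygon (rep s.1) := by
    intro s hs
    have e : rep s.1 = sh (-(t s.1)) s.1 := by
      calc rep s.1 = sh (-(t s.1) + t s.1) (rep s.1) := by
            rw [neg_add_cancel, sh_zero']
        _ = sh (-(t s.1)) (sh (t s.1) (rep s.1)) := (sh_sh' _ _ _).symm
        _ = sh (-(t s.1)) s.1 := congrArg (sh (-(t s.1))) (h1 s.1).symm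
    rw [e]
    exact sh_polygon' _ (hT.polygon s hs)
  have hdec : ∀ s ∈ T, GoodDec (rep s.1) (D₀ (rep s.1)) (ρ₀ (rep s.1)) :=
    fun s hs => hD _ (hrep s hs)
  have hsub : ∀ s ∈ T, ∀ Q ∈ D₀ (rep s.1), sh (t s.1) Q ⊆ s.1 := by
    intro s hs Q hQ
    conv_rhs => rw [h1 s.1]
    exact image_mono ((hdec s hs).sub Q hQ)
  constructor
  · have : {q : Tile (C × Set ℂ × Set ℂ) | ∃ s ∈ T, ∃ Q₀ ∈ D₀ (rep s.1),
        q = (sh (t s.1) Q₀, (s.2, rep s.1, Q₀))} ⊆
        ⋃ s ∈ T, (fun Q₀ => (sh (t s.1) Q₀, (s.2, rep s.1, Q₀))) '' D₀ (rep s.1) := by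
      rintro q ⟨s, hs, Q, hQ, rfl⟩
      exact mem_biUnion hs ⟨Q, hQ, rfl⟩
    exact (hT.countable.biUnion fun s hs => ((hdec s hs).countable.image _)).mono this
  · rintro q ⟨s, hs, Q, hQ, rfl⟩
    exact sh_polygon' _ ((hdec s hs).poly Q hQ)
  · intro z
    obtain ⟨s, hs, hz⟩ := hT.cover z
    rw [h1 s.1] at hz
    obtain ⟨x, hx, rfl⟩ := hz
    obtain ⟨Q, hQ, hxQ⟩ := (hdec s hs).cover x hx
    exact ⟨(sh (t s.1) Q, (s.2, rep s.1, Q)), ⟨s, hs, Q, hQ, rfl⟩, ⟨x, hxQ, rfl⟩⟩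
  · rintro q ⟨s, hs, Q, hQ, rfl⟩ q' ⟨s', hs', Q', hQ', rfl⟩ hne
    by_cases hss : s = s'
    · subst hss
      have hQQ : Q ≠ Q' := by
        rintro rfl
        exact hne rfl
      have hd := (hdec s hs).disj Q hQ Q' hQ' hQQ
      show Disjoint (interior (sh (t s.1) Q)) (interior (sh (t s.1) Q'))
      rw [sh_interior', sh_interior']
      exact (disjoint_image_iff (Homeomorph.addLeft (t s.1)).injective).mpr hd
    · exact (hT.disj s hs s' hs' hss).mono (interior_mono (hsub s hs Q hQ))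
        (interior_mono (hsub s' hs' Q' hQ'))

end Pool.Agent.K4H59.TL
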