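import Pool.Agent.K4H52.TLM5

open Set

namespace Pool.Agent.K4H59.TL

open Pool.Agent.K4H72.Til (IsPolygon ShareEdge IsTiling Tile Derivable Adj HasLocEig patch shift)

namespace M3

lemma der_half {C : Type} {T : Set (Tile C)} (hT : IsTiling T) {rep : Set ℂ → Set ℂ}
    {t : Set ℂ → ℂ} (h1 : ∀ K, K = sh (t K) (rep K)) (h2 : ∀ K s, rep (sh s K) = rep K)
    {D₀ : Set ℂ → Set (Set ℂ)} {ρ₀ : Set ℂ → Set ℂ → ℕ}
    (hD : ∀ K, IsPolygon K → GoodDec K (D₀ K) (ρ₀ K)) {x y : ℂ}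
    (h : patch T (-x) (Metric.ball 0 1) = patch T (-y) (Metric.ball 0 1)) :
    patch {q : Tile (C × Set ℂ × Set ℂ) | ∃ s ∈ T, ∃ Q₀ ∈ D₀ (rep s.1),
      q = (sh (t s.1) Q₀, (s.2, rep s.1, Q₀))} (-x) {0} ⊆
    patch {q : Tile (C × Set ℂ × Set ℂ) | ∃ s ∈ T, ∃ Q₀ ∈ D₀ (rep s.1),
      q = (sh (t s.1) Q₀, (s.2, rep s.1, Q₀))} (-y) {0} := by
  rintro τ ⟨⟨q, ⟨s, hs, Q, hQ, rfl⟩, rfl⟩, hne⟩
  have hK := rep_polygon hT h1 s hs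
  have hdec := hD _ hK
  obtain ⟨z, hz, hz0⟩ := hne
  rw [mem_singleton_iff] at hz0
  subst hz0
  obtain ⟨w, hw, hw0⟩ := hz
  have hws : w ∈ s.1 := by
    rw [h1 s.1]
    exact image_mono (hdec.sub Q hQ) hw
  have hmem : shift (-x) s ∈ patch T (-x) (Metric.ball 0 1) :=
    ⟨⟨s, hs, rfl⟩, 0, ⟨w, hws, hw0⟩, by simp⟩
  rw [h] at hmem
  obtain ⟨⟨s', hs', hs''⟩, -⟩ := hmem
  have e1 : sh (-y) s'.1 = sh (-x) s.1 := congrArg Prod.fst hs''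
  have e3 : s'.2 = s.2 := (Prod.ext_iff.mp hs'').2
  have e4 : rep s'.1 = rep s.1 := by
    rw [← h2 s'.1 (-y), e1, h2]
  have e5 : sh (-y + t s'.1) (rep s.1) = sh (-x + t s.1) (rep s.1) := by
    calc sh (-y + t s'.1) (rep s.1) = sh (-y + t s'.1) (rep s'.1) := by rw [e4]
      _ = sh (-y) (sh (t s'.1) (rep s'.1)) := (sh_sh' _ _ _).symm
      _ = sh (-y) s'.1 := congrArg (sh (-y)) (h1 s'.1).symm
      _ = sh (-x) s.1 := e1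
      _ = sh (-x) (sh (t s.1) (rep s.1)) := congrArg (sh (-x)) (h1 s.1)
      _ = sh (-x + t s.1) (rep s.1) := sh_sh' _ _ _
  have e6 := sh_inj' hK.1 hK.2.1 e5
  have e7 : shift (-y) ((sh (t s'.1) Q, (s'.2, rep s'.1, Q)) : Tile (C × Set ℂ × Set ℂ)) =
      shift (-x) ((sh (t s.1) Q, (s.2, rep s.1, Q)) : Tile (C × Set ℂ × Set ℂ)) := by
    refine Prod.ext ?_ ?_
    · show sh (-y) (sh (t s'.1) Q) = sh (-x) (sh (t s.1) Q)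
      rw [sh_sh', sh_sh', e6]
    · show (s'.2, rep s'.1, Q) = (s.2, rep s.1, Q)
      rw [e3, e4]
  refine ⟨⟨_, ⟨s', hs', Q, by rw [e4]; exact hQ, rfl⟩, e7⟩, 0, ⟨w, hw, hw0⟩, rfl⟩

end M3

open M3 in
/-- PIECE M4 (the set is `newT T rep t D₀` unfolded) -/
theorem newT_der_aux {C : Type} {T : Set (Tile C)} (hT : IsTiling T) {rep : Set ℂ → Set ℂ}
    {t : Set ℂ → ℂ} (h1 : ∀ K, K = sh (t K) (rep K)) (h2 : ∀ K s, rep (sh s K) = rep K)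
    {D₀ : Set ℂ → Set (Set ℂ)} {ρ₀ : Set ℂ → Set ℂ → ℕ}
    (hD : ∀ K, IsPolygon K → GoodDec K (D₀ K) (ρ₀ K)) :
    Derivable T {q : Tile (C × Set ℂ × Set ℂ) | ∃ s ∈ T, ∃ Q₀ ∈ D₀ (rep s.1),
      q = (sh (t s.1) Q₀, (s.2, rep s.1, Q₀))} := by
  refine ⟨1, one_pos, fun x y h => ?_⟩
  exact Subset.antisymm (der_half hT h1 h2 hD h) (der_half hT h1 h2 hD h.symm)

end Pool.Agent.K4H59.TL
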