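import Pool.Agent.K4H52.TLM3

open Set

namespace Pool.Agent.K4H59.TL

open Pool.Agent.K4H72.Til (IsPolygon ShareEdge IsTiling Tile Derivable Adj HasLocEig patch shift)

namespace M3

lemma le_of_sh {K : Set ℂ} (hK : K.Nonempty) (hc : IsCompact K) {s t : ℂ} (h : sh s K = sh t K)
    (φ : ℂ →L[ℝ] ℝ) : φ s ≤ φ t := by
  obtain ⟨a, ha, hmax⟩ := hc.exists_isMaxOn hK φ.continuous.continuousOn
  have h1 : s + a ∈ sh t K := by
    rw [← h]; exact ⟨a, ha, rfl⟩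
  obtain ⟨b, hb, hb'⟩ := h1
  have h2 : φ b ≤ φ a := hmax hb
  have h3 : φ (t + b) = φ (s + a) := congrArg φ hb'
  rw [map_add, map_add] at h3
  linarith

lemma sh_inj' {K : Set ℂ} (hK : K.Nonempty) (hc : IsCompact K) {s t : ℂ}
    (h : sh s K = sh t K) : s = t := by
  apply Complex.ext
  · exact le_antisymm (le_of_sh hK hc h Complex.reCLM) (le_of_sh hK hc h.symm Complex.reCLM)
  · exact le_antisymm (le_of_sh hK hc h Complex.imCLM) (le_of_sh hK hc h.symm Complex.imCLM)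

lemma rep_polygon {C : Type} {T : Set (Tile C)} (hT : IsTiling T) {rep : Set ℂ → Set ℂ}
    {t : Set ℂ → ℂ} (h1 : ∀ K, K = sh (t K) (rep K)) : ∀ s ∈ T, IsPolygon (rep s.1) := by
  intro s hs
  have e : rep s.1 = sh (-(t s.1)) s.1 := by
    calc rep s.1 = sh (-(t s.1) + t s.1) (rep s.1) := by
          rw [neg_add_cancel, sh_zero']
      _ = sh (-(t s.1)) (sh (t s.1) (rep s.1)) := (sh_sh' _ _ _).symm
      _ = sh (-(t s.1)) s.1 := congrArg (sh (-(t s.1))) (h1 s.1).symm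
  rw [e]
  exact sh_polygon' _ (hT.polygon s hs)

lemma der'_half {C : Type} {T : Set (Tile C)} (hT : IsTiling T) {rep : Set ℂ → Set ℂ}
    {t : Set ℂ → ℂ} (h1 : ∀ K, K = sh (t K) (rep K))
    {D₀ : Set ℂ → Set (Set ℂ)} {ρ₀ : Set ℂ → Set ℂ → ℕ}
    (hD : ∀ K, IsPolygon K → GoodDec K (D₀ K) (ρ₀ K)) {x y : ℂ}
    (h : patch {q : Tile (C × Set ℂ × Set ℂ) | ∃ s ∈ T, ∃ Q₀ ∈ D₀ (rep s.1),
      q = (sh (t s.1) Q₀, (s.2, rep s.1, Q₀))} (-x) (Metric.ball 0 1) =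
      patch {q : Tile (C × Set ℂ × Set ℂ) | ∃ s ∈ T, ∃ Q₀ ∈ D₀ (rep s.1),
      q = (sh (t s.1) Q₀, (s.2, rep s.1, Q₀))} (-y) (Metric.ball 0 1)) :
    patch T (-x) {0} ⊆ patch T (-y) {0} := by
  rintro τ ⟨⟨s, hs, rfl⟩, hne⟩
  obtain ⟨z, hz, hz0⟩ := hne
  rw [mem_singleton_iff] at hz0
  subst hz0
  obtain ⟨w, hw, hw0⟩ := hz
  have hwx : w = x := by
    have : -x + w = 0 := hw0
    linear_combination this
  subst hwx
  have hdec := hD _ (rep_polygon hT h1 s hs)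
  have hw' := hw
  rw [h1 s.1] at hw'
  obtain ⟨v, hv, hvw⟩ := hw'
  obtain ⟨Q, hQ, hvQ⟩ := hdec.cover v hv
  have hmem : shift (-w) ((sh (t s.1) Q, (s.2, rep s.1, Q)) : Tile (C × Set ℂ × Set ℂ)) ∈
      patch {q : Tile (C × Set ℂ × Set ℂ) | ∃ s ∈ T, ∃ Q₀ ∈ D₀ (rep s.1),
      q = (sh (t s.1) Q₀, (s.2, rep s.1, Q₀))} (-w) (Metric.ball 0 1) := by
    refine ⟨⟨_, ⟨s, hs, Q, hQ, rfl⟩, rfl⟩, 0, ⟨w, ⟨v, hvQ, hvw⟩, hw0⟩, ?_⟩
    simp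
  rw [h] at hmem
  obtain ⟨⟨q', ⟨s', hs', Q', hQ', rfl⟩, hq'⟩, -⟩ := hmem
  have e1 : sh (-y) (sh (t s'.1) Q') = sh (-w) (sh (t s.1) Q) := congrArg Prod.fst hq'
  have e2 : (s'.2, rep s'.1, Q') = (s.2, rep s.1, Q) := congrArg Prod.snd hq'
  have e3 : s'.2 = s.2 := congrArg Prod.fst e2
  have e4 : rep s'.1 = rep s.1 := congrArg (fun p => p.2.1) e2
  have e5 : Q' = Q := congrArg (fun p => p.2.2) e2
  subst e5
  rw [sh_sh', sh_sh'] at e1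
  have hQp := hdec.poly Q' hQ
  have e6 := sh_inj' hQp.1 hQp.2.1 e1
  have e7 : shift (-y) s' = shift (-w) s := by
    refine Prod.ext ?_ e3
    show sh (-y) s'.1 = sh (-w) s.1
    calc sh (-y) s'.1 = sh (-y) (sh (t s'.1) (rep s'.1)) := congrArg (sh (-y)) (h1 s'.1)
      _ = sh (-y + t s'.1) (rep s'.1) := sh_sh' _ _ _
      _ = sh (-w + t s.1) (rep s.1) := by rw [e6, e4]
      _ = sh (-w) (sh (t s.1) (rep s.1)) := (sh_sh' _ _ _).symm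
      _ = sh (-w) s.1 := congrArg (sh (-w)) (h1 s.1).symm
  exact ⟨⟨s', hs', e7⟩, 0, ⟨w, hw, hw0⟩, rfl⟩

end M3

open M3 in
/-- PIECE M5 (the set is `newT T rep t D₀` unfolded) -/
theorem newT_der'_aux {C : Type} {T : Set (Tile C)} (hT : IsTiling T) {rep : Set ℂ → Set ℂ}
    {t : Set ℂ → ℂ} (h1 : ∀ K, K = sh (t K) (rep K))
    {D₀ : Set ℂ → Set (Set ℂ)} {ρ₀ : Set ℂ → Set ℂ → ℕ}
    (hD : ∀ K, IsPolygon K → GoodDec K (D₀ K) (ρ₀ K)) :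
    Derivable {q : Tile (C × Set ℂ × Set ℂ) | ∃ s ∈ T, ∃ Q₀ ∈ D₀ (rep s.1),
      q = (sh (t s.1) Q₀, (s.2, rep s.1, Q₀))} T := by
  refine ⟨1, one_pos, fun x y h => ?_⟩
  exact Subset.antisymm (der'_half hT h1 hD h) (der'_half hT h1 hD h.symm)

end Pool.Agent.K4H59.TL
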